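import Pool.Agent.H608R4.KM.Stm

/-!
# Project KM, piece P1 (helper150): pairs in the same cluster
-/

set_option autoImplicit false

namespace Pool.Agent.TH150.KM

theorem aux (c s c' s' : ℝ) (h : c ^ 2 + s ^ 2 = 1) (h' : c' ^ 2 + s' ^ 2 = 1) (hc : 0 < c)
    (hc' : 0 < c') (hh : 1 / 2 ≤ c ^ 2) (hh' : 1 / 2 ≤ c' ^ 2) :
    0 ≤ (c * c' + s * s') * (1 - (c * c' + s * s')) + (s * c' - c * s') * (s - s') ∧
    (c * c' + s * s') * (1 - (c * c' + s * s')) + (s * c' - c * s') * (s - s') ≤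
      3 / 2 * (s - s') ^ 2 + 3 * (|s * s'| * (|s| + |s'|)) := by
  obtain ⟨C, hC⟩ : ∃ C, C = c * c' + s * s' := ⟨_, rfl⟩
  obtain ⟨S, hS⟩ : ∃ S, S = s * c' - c * s' := ⟨_, rfl⟩
  obtain ⟨A, hA⟩ : ∃ A, A = |s| := ⟨_, rfl⟩
  obtain ⟨B, hB⟩ : ∃ B, B = |s'| := ⟨_, rfl⟩
  rw [abs_mul, ← hC, ← hS, ← hA, ← hB]
  have hA0 : 0 ≤ A := hA ▸ abs_nonneg s
  have hB0 : 0 ≤ B := hB ▸ abs_nonneg s'
  have hA2 : A ^ 2 = s ^ 2 := by rw [hA, sq_abs]
  have hB2 : B ^ 2 = s' ^ 2 := by rw [hB, sq_abs]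
  have hAB : s * s' ≤ A * B := by rw [hA, hB, ← abs_mul]; exact le_abs_self _
  have hAB' : -(A * B) ≤ s * s' := by rw [hA, hB, ← abs_mul]; exact neg_abs_le _
  have hAB0 : 0 ≤ A * B := mul_nonneg hA0 hB0
  have hccpos : 0 < c * c' := mul_pos hc hc'
  have h4 : 1 / 4 ≤ (c * c') ^ 2 := by
    have := mul_le_mul hh hh' (by norm_num) (sq_nonneg c)
    rw [mul_pow]
    linarith
  have hcc : 1 / 2 ≤ c * c' := by
    by_contra hlt
    push Not at hlt
    have := mul_lt_mul'' hlt hlt hccpos.le hccpos.le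
    linarith
  have hAB1 : A * B ≤ 1 / 2 := by
    have := sq_nonneg (A - B)
    linarith
  have hC0 : 0 ≤ C := by linarith
  have hC1 : C ≤ 1 := by
    have t1 := sq_nonneg (c - c')
    have t2 := sq_nonneg (s - s')
    linarith
  have e1 : C ^ 2 + S ^ 2 = 1 := by
    rw [hC, hS]
    linear_combination (c' ^ 2 + s' ^ 2) * h + h'
  have e2 : (s - s') * (1 + C) = S * (c + c') := by
    rw [hC, hS]
    linear_combination s' * h - s * h'
  have e3 : (c + c') ^ 2 + (s + s') ^ 2 = 2 * (1 + C) := by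
    rw [hC]
    linear_combination h + h'
  have hσ : 2 ≤ (c + c') ^ 2 := by
    have : (c + c') ^ 2 = c ^ 2 + 2 * (c * c') + c' ^ 2 := by ring
    linarith
  have h1C : 0 < 1 + C := by linarith
  have hSq : 0 ≤ S * (s - s') := by
    have e4 : (S * (s - s')) * (1 + C) = S ^ 2 * (c + c') := by
      linear_combination S * e2
    have e5 : 0 ≤ (S * (s - s')) * (1 + C) := by
      rw [e4]; positivity
    exact nonneg_of_mul_nonneg_left e5 h1C
  have hW0 : 0 ≤ C * (1 - C) := mul_nonneg hC0 (by linarith)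
  refine ⟨by linarith, ?_⟩
  -- the identity for `1 - C`
  have e6 : (1 - C) * (c + c') ^ 2 = (s - s') ^ 2 * (1 + C) := by
    have : ((1 - C) * (c + c') ^ 2) * (1 + C) = ((s - s') ^ 2 * (1 + C)) * (1 + C) := by
      linear_combination ((-((c + c') ^ 2)) * e1 -
        (((s - s') * (1 + C)) + S * (c + c')) * e2)
    exact mul_right_cancel₀ h1C.ne' this
  have e7 : (s - s') ^ 2 ≤ 2 * S ^ 2 := by
    have e8 : S ^ 2 * (c + c') ^ 2 = (s - s') ^ 2 * (1 + C) ^ 2 := by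
      linear_combination (-(((s - s') * (1 + C)) + S * (c + c'))) * e2
    have e9 : (c + c') ^ 2 ≤ 2 * (1 + C) := by
      have := sq_nonneg (s + s')
      linarith
    have e10 : (c + c') ^ 2 * (c + c') ^ 2 ≤ 4 * (1 + C) ^ 2 := by
      calc (c + c') ^ 2 * (c + c') ^ 2 ≤ (2 * (1 + C)) * (2 * (1 + C)) :=
            mul_self_le_mul_self (sq_nonneg (c + c')) e9
        _ = 4 * (1 + C) ^ 2 := by ring
    have e11 : (s - s') ^ 2 * ((c + c') ^ 2 * (c + c') ^ 2) ≤ 4 * (S ^ 2 * (c + c') ^ 2) := by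
      rw [e8]
      calc (s - s') ^ 2 * ((c + c') ^ 2 * (c + c') ^ 2) ≤ (s - s') ^ 2 * (4 * (1 + C) ^ 2) :=
            mul_le_mul_of_nonneg_left e10 (sq_nonneg _)
        _ = 4 * ((s - s') ^ 2 * (1 + C) ^ 2) := by ring
    have e12 : (s - s') ^ 2 * (c + c') ^ 2 ≤ 4 * S ^ 2 := by
      have hpos : 0 < (c + c') ^ 2 := by linarith
      have : ((s - s') ^ 2 * (c + c') ^ 2) * (c + c') ^ 2 ≤ (4 * S ^ 2) * (c + c') ^ 2 := by
        linarith
      exact le_of_mul_le_mul_right this hpos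
    have e12' : (s - s') ^ 2 * 2 ≤ (s - s') ^ 2 * (c + c') ^ 2 :=
      mul_le_mul_of_nonneg_left hσ (sq_nonneg _)
    linarith
  have e13 : C * (1 - C) ≤ (s - s') ^ 2 / 2 + (s - s') ^ 2 * (A * B) := by
    have hpos : 0 < (c + c') ^ 2 := by linarith
    have e14 : (2 * (C * (1 - C))) * (c + c') ^ 2 = (s - s') ^ 2 * (2 * (1 + C) - 2 * S ^ 2) := by
      linear_combination (2 * C) * e6 + (2 * (s - s') ^ 2) * e1
    have e15 : 2 * (1 + C) - 2 * S ^ 2 ≤ (c + c') ^ 2 + 4 * (A * B) := by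
      have e30 : (s + s') ^ 2 - (s - s') ^ 2 = 4 * (s * s') := by ring
      linarith
    have e16 : (s - s') ^ 2 * (2 * (1 + C) - 2 * S ^ 2) ≤
        (s - s') ^ 2 * ((c + c') ^ 2 + 4 * (A * B)) :=
      mul_le_mul_of_nonneg_left e15 (sq_nonneg _)
    have e17 : (s - s') ^ 2 * (4 * (A * B)) ≤ (s - s') ^ 2 * (2 * (A * B) * (c + c') ^ 2) := by
      apply mul_le_mul_of_nonneg_left _ (sq_nonneg _)
      have := mul_le_mul_of_nonneg_left hσ (by linarith : 0 ≤ 2 * (A * B))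
      linarith
    have e18 : (2 * (C * (1 - C))) * (c + c') ^ 2 ≤
        (2 * ((s - s') ^ 2 / 2 + (s - s') ^ 2 * (A * B))) * (c + c') ^ 2 := by
      rw [e14]
      linarith
    have := le_of_mul_le_mul_right e18 hpos
    linarith
  have hcl : c ≤ 1 := by
    by_contra hlt
    push Not at hlt
    have := mul_lt_mul'' hlt hlt zero_le_one zero_le_one
    have := sq_nonneg s
    linarith
  have hcl' : c' ≤ 1 := by
    by_contra hlt
    push Not at hlt
    have := mul_lt_mul'' hlt hlt zero_le_one zero_le_one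
    have := sq_nonneg s'
    linarith
  have hc1 : 1 - c ≤ s ^ 2 := by
    have := mul_nonneg hc.le (by linarith : 0 ≤ 1 - c)
    linarith
  have hc1' : 1 - c' ≤ s' ^ 2 := by
    have := mul_nonneg hc'.le (by linarith : 0 ≤ 1 - c')
    linarith
  have e19 : S * (s - s') ≤ (s - s') ^ 2 + (A * B) * (s ^ 2 + s' ^ 2) := by
    have e20 : S * (s - s') = (s - s') ^ 2 - s ^ 2 * (1 - c') - s' ^ 2 * (1 - c) +
        s * s' * (2 - c - c') := by
      rw [hS]; ring
    have e21 : s * s' * (2 - c - c') ≤ (A * B) * (2 - c - c') :=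
      mul_le_mul_of_nonneg_right hAB (by linarith)
    have e22 : (A * B) * (2 - c - c') ≤ (A * B) * (s ^ 2 + s' ^ 2) :=
      mul_le_mul_of_nonneg_left (by linarith) hAB0
    have e23 : 0 ≤ s ^ 2 * (1 - c') := mul_nonneg (sq_nonneg _) (by linarith)
    have e24 : 0 ≤ s' ^ 2 * (1 - c) := mul_nonneg (sq_nonneg _) (by linarith)
    linarith
  have e25 : (s - s') ^ 2 + s ^ 2 + s' ^ 2 ≤ 2 * (A + B) ^ 2 := by linarith
  have e26 : A + B ≤ 3 / 2 := by
    by_contra hlt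
    push Not at hlt
    have e31 := mul_lt_mul'' hlt hlt (by norm_num) (by norm_num)
    have e32 := sq_nonneg (A - B)
    linarith
  have e27 : 2 * (A + B) ^ 2 ≤ 3 * (A + B) := by
    have := mul_le_mul_of_nonneg_left e26 (by linarith : 0 ≤ A + B)
    linarith
  have e28 : (A * B) * ((s - s') ^ 2 + s ^ 2 + s' ^ 2) ≤ (A * B) * (3 * (A + B)) :=
    mul_le_mul_of_nonneg_left (by linarith) hAB0
  linarith

open Pool.Agent.H608R4.KM in
theorem t_P1 : S_P1 := fun c s c' s' h h' hc hc' hh hh' => aux c s c' s' h h' hc hc' hh hh'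

end Pool.Agent.TH150.KM
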